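import Mathlib

/-!
# Sign exceptions of the square of the Thue-Morse generating function

`t m n` is the coefficient of `x ^ n` in the infinite product `∏_{k ≥ 0} (1 - x ^ (2 ^ k)) ^ m`, and
`A m j` is the set of the `n` with `sgn t_m(3 n + j) ≠ (-1) ^ j`.

For `m = 2` and `j = 0, 1` the set `A 2 j` does not have density zero: it has positive lower density.
Reason: for every `k ≥ 1` one of `k`, `16 k`, `128 k + 32` belongs to `A 2 0`, and `2 x` belongs to
`A 2 1` for all `x` in `A 2 0`.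
-/

set_option autoImplicit false

namespace Pool.Agent.Results.MP_58bd73_nt.SignExceptions

open Finset Polynomial Filter
open scoped Classical

/-- The product of the first `K` factors of `∏_{k ≥ 0} (1 - x ^ (2 ^ k)) ^ m`. -/
noncomputable def partialProduct (m K : ℕ) : ℤ[X] := ∏ k ∈ range K, (1 - X ^ (2 ^ k)) ^ m

/-- The coefficient `t_m(n)` of `x ^ n` in `∏_{k ≥ 0} (1 - x ^ (2 ^ k)) ^ m`; the factors with
`k > n` have no influence on it. -/
noncomputable def t (m n : ℕ) : ℤ := (partialProduct m (n + 1)).coeff n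

/-- The set `A_{m,j}` of the `n` with `sgn t_m(3 n + j) ≠ (-1) ^ j`. -/
def A (m j : ℕ) : Set ℕ := {n | Int.sign (t m (3 * n + j)) ≠ (-1) ^ j}

/-- The number of the elements of `S` below `N`. -/
noncomputable def count (S : Set ℕ) (N : ℕ) : ℕ := ((range N).filter (· ∈ S)).card

theorem partialProduct_succ (m K : ℕ) :
    partialProduct m (K + 1) = partialProduct m K * (1 - X ^ (2 ^ K)) ^ m := by
  unfold partialProduct
  rw [prod_range_succ]

theorem coeff_succ (m K n : ℕ) (h : n < 2 ^ K) :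
    (partialProduct m (K + 1)).coeff n = (partialProduct m K).coeff n := by
  have h1 : (X : ℤ[X]) ^ (2 ^ K) ∣ (1 - X ^ (2 ^ K)) ^ m - 1 ^ m := by
    refine dvd_trans ?_ (sub_dvd_pow_sub_pow (1 - (X : ℤ[X]) ^ (2 ^ K)) 1 m)
    exact ⟨-1, by ring⟩
  have h2 : (X : ℤ[X]) ^ (2 ^ K) ∣ partialProduct m (K + 1) - partialProduct m K := by
    rw [partialProduct_succ]
    have : partialProduct m K * (1 - X ^ (2 ^ K)) ^ m - partialProduct m K =
        partialProduct m K * ((1 - X ^ (2 ^ K)) ^ m - 1 ^ m) := by ring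
    rw [this]
    exact dvd_mul_of_dvd_right h1 _
  have h3 := (Polynomial.X_pow_dvd_iff.1 h2) n h
  rw [coeff_sub] at h3
  linarith

theorem coeff_stable (m n K L : ℕ) (h : n < 2 ^ K) (hKL : K ≤ L) :
    (partialProduct m L).coeff n = (partialProduct m K).coeff n := by
  induction L, hKL using Nat.le_induction with
  | base => rfl
  | succ L hL ih =>
    rw [coeff_succ m L n (lt_of_lt_of_le h (Nat.pow_le_pow_right (by norm_num) hL)), ih]

theorem coeff_eq_t (m n K : ℕ) (h : n < 2 ^ K) : (partialProduct m K).coeff n = t m n := by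
  unfold t
  have h1 : n < 2 ^ (n + 1) := lt_trans (Nat.lt_succ_self n) (Nat.lt_two_pow_self)
  rcases le_total K (n + 1) with h2 | h2
  · rw [coeff_stable m n K (n + 1) h h2]
  · rw [coeff_stable m n (n + 1) K h1 h2]

theorem partialProduct_expand (K : ℕ) :
    partialProduct 2 (K + 1) = (1 - X) ^ 2 * Polynomial.expand ℤ 2 (partialProduct 2 K) := by
  unfold partialProduct
  rw [prod_range_succ', map_prod, mul_comm]
  congr 1
  · simp
  · refine prod_congr rfl fun k _ => ?_
    simp only [map_pow, map_sub, map_one, expand_X]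
    rw [← pow_mul, show 2 * 2 ^ k = 2 ^ (k + 1) by ring]

theorem t_odd (n : ℕ) : t 2 (2 * n + 1) = -2 * t 2 n := by
  have hn : n < 2 ^ n := Nat.lt_two_pow_self
  rw [← coeff_eq_t 2 (2 * n + 1) (n + 1) (by rw [pow_succ]; omega), ← coeff_eq_t 2 n n hn,
    partialProduct_expand]
  have e : ((1 : ℤ[X]) - X) ^ 2 * expand ℤ 2 (partialProduct 2 n) =
      expand ℤ 2 (partialProduct 2 n) - C 2 * (X * expand ℤ 2 (partialProduct 2 n)) +
        X * (X * expand ℤ 2 (partialProduct 2 n)) := by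
    have : (C (2 : ℤ) : ℤ[X]) = 2 := rfl
    rw [this]
    ring
  rw [e, coeff_add, coeff_sub, coeff_C_mul, coeff_X_mul, coeff_X_mul,
    coeff_expand (by norm_num), coeff_expand (by norm_num), if_neg (by omega), if_pos (by omega),
    Nat.mul_div_cancel_left n (by norm_num)]
  rcases n with _ | n
  · simp
  · have e2 : 2 * (n + 1) = (2 * n + 1) + 1 := by ring
    rw [e2, coeff_X_mul, coeff_expand (by norm_num), if_neg (by omega)]
    ring

theorem t_even (n : ℕ) : t 2 (2 * (n + 1)) = t 2 (n + 1) + t 2 n := by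
  have hn : n + 1 < 2 ^ (n + 1) := Nat.lt_two_pow_self
  rw [← coeff_eq_t 2 (2 * (n + 1)) (n + 2) (by rw [pow_succ]; omega),
    ← coeff_eq_t 2 n (n + 1) (by omega), ← coeff_eq_t 2 (n + 1) (n + 1) hn,
    partialProduct_expand]
  have e : ((1 : ℤ[X]) - X) ^ 2 * expand ℤ 2 (partialProduct 2 (n + 1)) =
      expand ℤ 2 (partialProduct 2 (n + 1)) - C 2 * (X * expand ℤ 2 (partialProduct 2 (n + 1))) +
        X * (X * expand ℤ 2 (partialProduct 2 (n + 1))) := by
    have : (C (2 : ℤ) : ℤ[X]) = 2 := rfl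
    rw [this]
    ring
  have e2 : 2 * (n + 1) = 2 * n + 1 + 1 := by ring
  rw [e, coeff_add, coeff_sub, coeff_C_mul, e2, coeff_X_mul, coeff_X_mul, coeff_X_mul,
    coeff_expand (by norm_num), coeff_expand (by norm_num), coeff_expand (by norm_num),
    if_neg (by omega : ¬ 2 ∣ 2 * n + 1), if_pos (by omega), if_pos (by omega)]
  have e3 : (2 * n + 1 + 1) / 2 = n + 1 := by omega
  have e4 : 2 * n / 2 = n := by omega
  rw [e3, e4]
  ring

/-- The recurrences in the form used below. -/
theorem step (n : ℕ) (hn : 1 ≤ n) :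
    t 2 (2 * n) = t 2 n + t 2 (n - 1) ∧ t 2 (2 * n - 1) = -2 * t 2 (n - 1) := by
  obtain ⟨k, rfl⟩ : ∃ k, n = k + 1 := ⟨n - 1, by omega⟩
  refine ⟨?_, ?_⟩
  · rw [t_even]; simp
  · have : 2 * (k + 1) - 1 = 2 * k + 1 := by omega
    rw [this, t_odd]; simp

theorem t16 (n : ℕ) (hn : 1 ≤ n) : t 2 (16 * n) = t 2 n - 5 * t 2 (n - 1) := by
  have h1 := step n hn
  have h2 := step (2 * n) (by omega)
  have h3 := step (2 * (2 * n)) (by omega)
  have h4 := step (2 * (2 * (2 * n))) (by omega)
  have e : 16 * n = 2 * (2 * (2 * (2 * n))) := by ring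
  rw [e]
  linarith [h1.1, h1.2, h2.1, h2.2, h3.1, h3.2, h4.1, h4.2]

theorem t32 (n : ℕ) (hn : 1 ≤ n) : t 2 (32 * n) = t 2 n + 11 * t 2 (n - 1) := by
  have h1 := step n hn
  have h2 := step (2 * n) (by omega)
  have h3 := step (2 * (2 * n)) (by omega)
  have h4 := step (2 * (2 * (2 * n))) (by omega)
  have h5 := step (2 * (2 * (2 * (2 * n)))) (by omega)
  have e : 32 * n = 2 * (2 * (2 * (2 * (2 * n)))) := by ring
  rw [e]
  linarith [h1.1, h1.2, h2.1, h2.2, h3.1, h3.2, h4.1, h4.2, h5.1, h5.2]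

theorem t_last (n : ℕ) (hn : 1 ≤ n) :
    t 2 (32 * (4 * n + 3)) = 11 * t 2 (n - 1) - 7 * t 2 n := by
  have h := t32 (4 * n + 3) (by omega)
  have e0 : 4 * n + 3 - 1 = 2 * (2 * n + 1) := by omega
  have h1 := step (2 * n + 1) (by omega)
  have e1 : 2 * n + 1 - 1 = 2 * n := by omega
  have h2 := t_odd (2 * n + 1)
  have e2 : 2 * (2 * n + 1) + 1 = 4 * n + 3 := by ring
  have h3 := t_odd n
  have h4 := step n hn
  rw [e0] at h
  rw [e1] at h1
  rw [e2] at h2
  linarith [h1.1, h4.1]

theorem exception (n : ℕ) (hn : 1 ≤ n) :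
    t 2 n ≤ 0 ∨ t 2 (16 * n) ≤ 0 ∨ t 2 (32 * (4 * n + 3)) ≤ 0 := by
  rw [t16 n hn, t_last n hn]
  by_contra h
  push Not at h
  obtain ⟨h1, h2, h3⟩ := h
  linarith

theorem mem_A0 (x : ℕ) : x ∈ A 2 0 ↔ t 2 (3 * x) ≤ 0 := by
  unfold A
  simp only [Set.mem_ofPred_eq, add_zero, pow_zero]
  constructor
  · intro h
    by_contra h1
    push Not at h1
    exact h (Int.sign_eq_one_of_pos h1)
  · intro h h1
    have := Int.sign_eq_one_iff_pos.1 h1
    omega

theorem mem_A1 (x : ℕ) : x ∈ A 2 1 ↔ 0 ≤ t 2 (3 * x + 1) := by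
  unfold A
  simp only [Set.mem_ofPred_eq, pow_one]
  constructor
  · intro h
    by_contra h1
    push Not at h1
    exact h (Int.sign_eq_neg_one_of_neg h1)
  · intro h h1
    have := Int.sign_eq_neg_one_iff_neg.1 h1
    omega

theorem three (k : ℕ) (hk : 1 ≤ k) : k ∈ A 2 0 ∨ 16 * k ∈ A 2 0 ∨ 128 * k + 32 ∈ A 2 0 := by
  rw [mem_A0, mem_A0, mem_A0]
  have h := exception (3 * k) (by omega)
  have e1 : 3 * (16 * k) = 16 * (3 * k) := by ring
  have e2 : 3 * (128 * k + 32) = 32 * (4 * (3 * k) + 3) := by ring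
  rw [e1, e2]
  exact h

theorem double (x : ℕ) (h : x ∈ A 2 0) : 2 * x ∈ A 2 1 := by
  rw [mem_A0] at h
  rw [mem_A1]
  have e : 3 * (2 * x) + 1 = 2 * (3 * x) + 1 := by ring
  rw [e, t_odd]
  linarith

theorem count0 (N : ℕ) : N ≤ 384 * count (A 2 0) N + 160 := by
  set M := (N - 33) / 128 with hM
  let f : ℕ → ℕ := fun k => if k ∈ A 2 0 then k else if 16 * k ∈ A 2 0 then 16 * k else 128 * k + 32
  have hmaps : ∀ k ∈ Finset.Icc 1 M, f k ∈ (range N).filter (· ∈ A 2 0) := by
    intro k hk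
    rw [Finset.mem_Icc] at hk
    rw [Finset.mem_filter, Finset.mem_range]
    have hkM : 128 * k + 33 ≤ N := by omega
    have h3 := three k hk.1
    simp only [f]
    split_ifs with h1 h2
    · exact ⟨by omega, h1⟩
    · exact ⟨by omega, h2⟩
    · refine ⟨by omega, ?_⟩
      rcases h3 with h | h | h
      · exact absurd h h1
      · exact absurd h h2
      · exact h
  have hfib : ∀ x ∈ (range N).filter (· ∈ A 2 0),
      ((Finset.Icc 1 M).filter (fun k => f k = x)).card ≤ 3 := by
    intro x _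
    have hsub : (Finset.Icc 1 M).filter (fun k => f k = x) ⊆ {x, x / 16, (x - 32) / 128} := by
      intro k hk
      rw [Finset.mem_filter] at hk
      obtain ⟨_, hk⟩ := hk
      simp only [f] at hk
      simp only [Finset.mem_insert, Finset.mem_singleton]
      split_ifs at hk <;> omega
    exact le_trans (Finset.card_le_card hsub) Finset.card_le_three
  have h := Finset.card_le_mul_card_image_of_maps_to hmaps 3 hfib
  rw [Nat.card_Icc] at h
  have h' : M ≤ 3 * count (A 2 0) N := by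
    unfold count
    simpa using h
  omega

theorem count1 (N : ℕ) : count (A 2 0) ((N + 1) / 2) ≤ count (A 2 1) N := by
  unfold count
  refine Finset.card_le_card_of_injOn (fun x => 2 * x) ?_ ?_
  · intro x hx
    rw [Finset.mem_coe, Finset.mem_filter, Finset.mem_range] at hx
    rw [Finset.mem_coe, Finset.mem_filter, Finset.mem_range]
    exact ⟨by simp only; omega, double x hx.2⟩
  · intro x _ y _ h
    simpa using h

theorem counts (j : ℕ) (hj : j < 2) (N : ℕ) : N ≤ 768 * count (A 2 j) N + 320 := by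
  have h0 := count0 N
  have h1 := count1 N
  have h2 := count0 ((N + 1) / 2)
  interval_cases j
  · omega
  · omega

theorem not_density_zero (j : ℕ) (hj : j < 2) :
    ¬ Tendsto (fun N : ℕ => (count (A 2 j) N : ℝ) / N) atTop (nhds 0) := by
  intro h
  have h1 := (h.eventually (gt_mem_nhds (show (0 : ℝ) < 1 / 1536 by norm_num)))
  obtain ⟨N, hN1, hN2⟩ := (h1.and (eventually_ge_atTop 1000)).exists
  have h3 : (N : ℝ) ≤ 768 * (count (A 2 j) N : ℝ) + 320 := by exact_mod_cast counts j hj N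
  have hN : (1000 : ℝ) ≤ N := by exact_mod_cast hN2
  rw [div_lt_iff₀ (by linarith)] at hN1
  linarith

/-- The coefficients of all sufficiently long partial products of `∏_{k ≥ 0} (1 - x ^ (2 ^ k)) ^ m`
are the numbers `t m n`; for `j = 0, 1` the set `A 2 j` has at least `(N - 320) / 768` elements below
`N`, for every `N`; so it is not true that all the sets `A m j`, `m ≥ 2`, `j = 0, 1`, are infinite
and of density zero. -/
theorem result :
    (∀ m n K : ℕ, n < 2 ^ K → (partialProduct m K).coeff n = t m n) ∧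
    (∀ j N : ℕ, j < 2 → N ≤ 768 * count (A 2 j) N + 320) ∧
    (∀ j : ℕ, j < 2 → ¬ Tendsto (fun N : ℕ => (count (A 2 j) N : ℝ) / N) atTop (nhds 0)) ∧
    ¬ ∀ m : ℕ, 2 ≤ m → ∀ j : ℕ, j < 2 →
      (A m j).Infinite ∧ Tendsto (fun N : ℕ => (count (A m j) N : ℝ) / N) atTop (nhds 0) := by
  refine ⟨fun m n K h => coeff_eq_t m n K h, fun j N hj => counts j hj N,
    fun j hj => not_density_zero j hj, fun h => ?_⟩
  exact not_density_zero 0 (by norm_num) (h 2 le_rfl 0 (by norm_num)).2

end Pool.Agent.Results.MP_58bd73_nt.SignExceptions
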